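import Pool.Agent.helper62.VD.SpecE

set_option autoImplicit false

open MeasureTheory Filter Set Topology
open scoped ENNReal

namespace Pool.Agent.VDE

noncomputable section

variable {Γ S : Type} [Group Γ] [TopologicalSpace S] [MeasurableSpace S] [MulAction Γ S]
  {μ : Measure S} {F0 K : Set S} {d : S → S → ℝ} {f : ℝ → S → S}

theorem EWK_cont (hB : BF Γ S μ F0 K d f) {h : S → ℝ} (hh : TH Γ S h) (x : S) :
    Continuous (fun t : ℝ => h (f t x)) := by
  have h1 : Continuous (fun t : ℝ => ((t, x) : ℝ × S)) := by fun_prop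
  exact hh.cont.comp (hB.fcn.comp h1)

theorem EWK_bd (hB : BF Γ S μ F0 K d f) {h : S → ℝ} (hh : TH Γ S h) (x : S) {a b : ℝ}
    (hab : a ≤ b) : |∫ t in a..b, h (f t x)| ≤ b - a := by
  have := intervalIntegral.norm_integral_le_of_norm_le_const (a := a) (b := b) (C := 1)
    (f := fun t => h (f t x)) (fun t _ => by rw [Real.norm_eq_abs]; exact hh.bd _)
  rw [Real.norm_eq_abs, abs_of_nonneg (sub_nonneg.2 hab), one_mul] at this
  exact this

theorem EWK_avb (hB : BF Γ S μ F0 K d f) {h : S → ℝ} (hh : TH Γ S h) (x : S) {T : ℝ}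
    (hT : 0 < T) : |av f h T x| ≤ 1 := by
  unfold av
  rw [abs_mul, abs_of_pos (inv_pos.2 hT)]
  have := EWK_bd hB hh x hT.le
  rw [sub_zero] at this
  calc T⁻¹ * |∫ t in (0 : ℝ)..T, h (f t x)| ≤ T⁻¹ * T :=
        mul_le_mul_of_nonneg_left this (inv_pos.2 hT).le
    _ = 1 := inv_mul_cancel₀ hT.ne'

theorem EWK_diff (hB : BF Γ S μ F0 K d f) {h : S → ℝ} (hh : TH Γ S h) (x : S) {T n : ℝ}
    (hn : 0 < n) (h1 : n ≤ T) (h2 : T ≤ n + 1) : |av f h T x - av f h n x| ≤ 2 / T := by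
  have hT : 0 < T := hn.trans_le h1
  have hii : ∀ a b : ℝ, IntervalIntegrable (fun t => h (f t x)) volume a b := fun a b =>
    (EWK_cont hB hh x).intervalIntegrable a b
  have hadd : ∫ t in (0 : ℝ)..T, h (f t x) =
      (∫ t in (0 : ℝ)..n, h (f t x)) + ∫ t in n..T, h (f t x) :=
    (intervalIntegral.integral_add_adjacent_intervals (hii _ _) (hii _ _)).symm
  have b1 := EWK_bd hB hh x h1
  have b2 := EWK_bd hB hh x hn.le
  rw [sub_zero] at b2
  have e : av f h T x - av f h n x =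
      T⁻¹ * (∫ t in n..T, h (f t x)) - (n⁻¹ - T⁻¹) * ∫ t in (0 : ℝ)..n, h (f t x) := by
    unfold av
    rw [hadd]
    ring
  have hnT : 0 ≤ n⁻¹ - T⁻¹ := sub_nonneg.2 (inv_anti₀ hn h1)
  have a1 : |T⁻¹ * (∫ t in n..T, h (f t x))| ≤ T⁻¹ * 1 := by
    rw [abs_mul, abs_of_pos (inv_pos.2 hT)]
    exact mul_le_mul_of_nonneg_left (b1.trans (by linarith)) (inv_pos.2 hT).le
  have a2 : |(n⁻¹ - T⁻¹) * ∫ t in (0 : ℝ)..n, h (f t x)| ≤ T⁻¹ * 1 := by
    rw [abs_mul, abs_of_nonneg hnT]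
    calc (n⁻¹ - T⁻¹) * |∫ t in (0 : ℝ)..n, h (f t x)| ≤ (n⁻¹ - T⁻¹) * n :=
          mul_le_mul_of_nonneg_left b2 hnT
      _ = T⁻¹ * (T - n) := by field_simp
      _ ≤ T⁻¹ * 1 := mul_le_mul_of_nonneg_left (by linarith) (inv_pos.2 hT).le
  rw [e]
  calc |T⁻¹ * (∫ t in n..T, h (f t x)) - (n⁻¹ - T⁻¹) * ∫ t in (0 : ℝ)..n, h (f t x)|
      ≤ |T⁻¹ * (∫ t in n..T, h (f t x))| + |(n⁻¹ - T⁻¹) * ∫ t in (0 : ℝ)..n, h (f t x)| :=
        abs_sub _ _
    _ ≤ T⁻¹ * 1 + T⁻¹ * 1 := add_le_add a1 a2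
    _ = 2 / T := by ring

theorem EWK_avc [FirstCountableTopology S] (hB : BF Γ S μ F0 K d f) {h : S → ℝ}
    (hh : TH Γ S h) (T : ℝ) : Continuous (av f h T) := by
  unfold av
  refine Continuous.mul continuous_const ?_
  refine intervalIntegral.continuous_parametric_intervalIntegral_of_continuous'
    (f := fun (x : S) (t : ℝ) => h (f t x)) ?_ 0 T
  have : Continuous (fun q : S × ℝ => ((q.2, q.1) : ℝ × S)) := by fun_prop
  exact hh.cont.comp (hB.fcn.comp this)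

theorem EWK_proof (h1 : EER_stmt) (h2 : EGL_stmt) : EWK_stmt := by
  intro Γ S _ _ _ _ _ _ _ μ F0 K d f ε0 hB hε0 hGV hSH h hh e v0 he hv0
  have hGG : GG Γ d f := h2 Γ S μ F0 K d f hB hSH
  have hlim := h1 Γ S μ F0 K d f ε0 hB hε0 hGV hGG h hh
  have hc : 0 < (e / 2) ^ 2 * v0 := by positivity
  have hev := hlim.eventually (eventually_le_nhds (b := (e / 2) ^ 2 * v0) hc)
  obtain ⟨n0, hn0⟩ := Filter.eventually_atTop.1 hev
  obtain ⟨n1, hn1⟩ := exists_nat_ge (4 / e)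
  refine ⟨n0 + n1 + 1, by omega, fun T hT => ?_⟩
  push_cast at hT
  have hTpos : 0 < T := by
    have := Nat.cast_nonneg (α := ℝ) n0
    have := Nat.cast_nonneg (α := ℝ) n1
    linarith
  set n : ℕ := ⌊T⌋₊ with hn
  have hnT : (n : ℝ) ≤ T := Nat.floor_le hTpos.le
  have hTn : T ≤ n + 1 := (Nat.lt_floor_add_one T).le
  have hnn : n0 + n1 + 1 ≤ n := Nat.le_floor (by push_cast; exact hT)
  have hnpos : (0 : ℝ) < n := by
    have : 0 < n := by omega
    exact_mod_cast this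
  have h2T : 2 / T ≤ e / 2 := by
    have : 4 / e ≤ T := hn1.trans (by
      have := Nat.cast_nonneg (α := ℝ) n0
      linarith)
    rw [div_le_iff₀ he] at this
    rw [div_le_iff₀ hTpos]
    linarith
  set m : ℝ := mn μ F0 h with hm
  have hsub : F0 ∩ {x | e ≤ |av f h T x - m|} ⊆ {x | (e / 2) ^ 2 ≤ (av f h n x - m) ^ 2} ∩ F0 := by
    rintro x ⟨hx0, hx⟩
    refine ⟨?_, hx0⟩
    have hx' : e ≤ |av f h T x - m| := hx
    have hd := EWK_diff hB hh x hnpos hnT hTn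
    have htri : |av f h T x - m| ≤ |av f h T x - av f h n x| + |av f h n x - m| :=
      abs_sub_le _ _ _
    have : e / 2 ≤ |av f h n x - m| := by linarith
    show (e / 2) ^ 2 ≤ (av f h n x - m) ^ 2
    rw [← sq_abs (av f h n x - m)]
    exact pow_le_pow_left₀ (by positivity) this 2
  have hcont : Continuous (fun x => (av f h n x - m) ^ 2) :=
    ((EWK_avc hB hh n).sub continuous_const).pow 2
  haveI : IsFiniteMeasure (μ.restrict F0) := ⟨by
    rw [Measure.restrict_apply_univ]; exact hB.fin⟩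
  have hint : Integrable (fun x => (av f h n x - m) ^ 2) (μ.restrict F0) := by
    refine Integrable.of_bound hcont.aestronglyMeasurable ((1 + |m|) ^ 2)
      (Filter.Eventually.of_forall fun x => ?_)
    rw [Real.norm_eq_abs, abs_of_nonneg (sq_nonneg _), ← sq_abs]
    refine pow_le_pow_left₀ (abs_nonneg _) ?_ 2
    calc |av f h n x - m| ≤ |av f h n x| + |m| := abs_sub _ _
      _ ≤ 1 + |m| := by
        have := EWK_avb hB hh x hnpos
        linarith
  have hmk := mul_meas_ge_le_integral_of_nonneg (μ := μ.restrict F0)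
    (Filter.Eventually.of_forall fun x => sq_nonneg (av f h n x - m)) hint ((e / 2) ^ 2)
  have hle : (e / 2) ^ 2 * (μ.restrict F0).real {x | (e / 2) ^ 2 ≤ (av f h n x - m) ^ 2} ≤
      (e / 2) ^ 2 * v0 := hmk.trans (hn0 n (by omega))
  have hle' : (μ.restrict F0).real {x | (e / 2) ^ 2 ≤ (av f h n x - m) ^ 2} ≤ v0 :=
    le_of_mul_le_mul_left hle (by positivity)
  have hmeas : MeasurableSet {x | (e / 2) ^ 2 ≤ (av f h n x - m) ^ 2} :=
    (isClosed_le continuous_const hcont).measurableSet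
  have hfin : (μ.restrict F0) {x | (e / 2) ^ 2 ≤ (av f h n x - m) ^ 2} ≠ ⊤ := measure_ne_top _ _
  calc μ (F0 ∩ {x | e ≤ |av f h T x - m|})
      ≤ μ ({x | (e / 2) ^ 2 ≤ (av f h n x - m) ^ 2} ∩ F0) := measure_mono hsub
    _ = (μ.restrict F0) {x | (e / 2) ^ 2 ≤ (av f h n x - m) ^ 2} :=
        (Measure.restrict_apply hmeas).symm
    _ = ENNReal.ofReal ((μ.restrict F0).real {x | (e / 2) ^ 2 ≤ (av f h n x - m) ^ 2}) :=
        (ENNReal.ofReal_toReal hfin).symm
    _ ≤ ENNReal.ofReal v0 := ENNReal.ofReal_le_ofReal hle'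

end

end Pool.Agent.VDE
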